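import Pool.Agent.W147.LF.Stm

/-!
# The key lemma for Liouville sign patterns over F_q[t]
-/

open Polynomial Pool.Agent.W147.LF

namespace Pool.Agent.W929.LF

theorem two_ne {K : Type} [Field K] [Fintype K] (hodd : Odd (Fintype.card K)) : (2 : K) ≠ 0 := by
  intro h2
  obtain ⟨j, hj⟩ := hodd
  have h0 : ((Fintype.card K : ℕ) : K) = 0 := FiniteField.cast_card_eq_zero K
  rw [hj] at h0
  push_cast at h0
  rw [h2, zero_mul, zero_add] at h0
  exact one_ne_zero h0

theorem Om_mul {K : Type} [Field K] (a b : K[X]) (ha : a ≠ 0) (hb : b ≠ 0) :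
    Om (a * b) = Om a + Om b := by
  unfold Om
  rw [← Multiset.card_add]
  exact Multiset.card_eq_card_of_rel (UniqueFactorizationMonoid.factors_mul ha hb)

theorem cop_unit {K : Type} [Field K] {a b : K[X]} (ha : IsUnit a) : IsCoprime a b := by
  obtain ⟨v, rfl⟩ := ha
  exact ⟨((v⁻¹ : (K[X])ˣ) : K[X]), 0, by simp⟩

theorem t_Key (hmL : S_RmulL) (hmR : S_RmulR) (hc : S_Rcongr) (hsw : S_Rswap) (hne : S_Rne)
    (hfr : S_Rfrob) (hRC : S_RC) (hP : S_Pel) : S_Key := by
  intro K _ _ hodd s V N Qt f m a1 d y1 k e hk hN hQt hf hfi hfN hQN hV ha hm ha1 hmN hy hd hy1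
    hdN hdV hds he
  have h2 : (2 : K) ≠ 0 := two_ne hodd
  have hC2 : (C (2 : K)) * C (2⁻¹ : K) = 1 := by rw [← C_mul, mul_inv_cancel₀ h2, C_1]
  have hcN : ∀ x g : K[X], IsCoprime x N → g ∣ N ^ k → IsCoprime x g := fun x g h1 h3 =>
    (h1.pow_right (n := k)).of_isCoprime_of_dvd_right h3
  have hQk : Qt ∣ N ^ k := hQN.trans (dvd_pow_self N (by omega))
  set L := AlgebraicClosure K with hL
  have h2L : (algebraMap K L 2) ≠ 0 := by
    rw [map_ne_zero_iff _ (algebraMap K L).injective]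
    exact h2
  have nz1 : R d a1 ≠ 0 := (hne K d a1 hd.ne_zero).mpr (hcN _ _ ha1 hdN).symm
  have nz2 : R Qt y1 ≠ 0 := (hne K Qt y1 hQt.ne_zero).mpr (hcN _ _ hy1 hQk).symm
  have nz3 : R m a1 ≠ 0 := (hne K m a1 hm.ne_zero).mpr (hcN _ _ ha1 hmN).symm
  have nz4 : R m y1 ≠ 0 := (hne K m y1 hm.ne_zero).mpr (hcN _ _ hy1 hmN).symm
  have nz5 : R f d ≠ 0 := (hne K f d hf.ne_zero).mpr (hcN _ _ hfN hdN)
  obtain ⟨m', hm'⟩ := hmN
  obtain ⟨d', hd'⟩ := hdN
  set D := 4 * e - m.natDegree with hDdef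
  set p := e - d.natDegree with hpdef
  have hneg : ∀ n : ℕ, ((-1 : L) ^ n) ≠ 0 := fun n => pow_ne_zero _ (neg_ne_zero.mpr one_ne_zero)
  have hsq : ∀ n : ℕ, ((-1 : L) ^ n) * ((-1 : L) ^ n) = 1 := by
    intro n
    rw [← mul_pow]
    norm_num
  set κ0 : L := (algebraMap K L 2) ^ D * ((-1) ^ (D * d.natDegree) * R d a1) *
    ((-1) ^ (4 * e * p) * (-1) ^ (p * f.natDegree) * (-1) ^ (p * Qt.natDegree) * R Qt y1) /
    (((-1) ^ (D * m.natDegree) * R m a1) * R m y1 * R f d) with hκ0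
  have hκ0ne : κ0 ≠ 0 := by
    rw [hκ0]
    refine div_ne_zero ?_ ?_
    · exact mul_ne_zero (mul_ne_zero (pow_ne_zero _ h2L) (mul_ne_zero (hneg _) nz1))
        (mul_ne_zero (mul_ne_zero (mul_ne_zero (hneg _) (hneg _)) (hneg _)) nz2)
    · exact mul_ne_zero (mul_ne_zero (mul_ne_zero (hneg _) nz3) nz4) nz5
  refine ⟨(-1) ^ Om m * (-1) ^ D * ((-1) ^ (D * (D - 1) / 2)) ^ hq K * κ0 ^ hq K, ?_, ?_⟩
  · exact mul_ne_zero (mul_ne_zero (mul_ne_zero (hneg _) (hneg _)) (pow_ne_zero _ (hneg _)))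
      (pow_ne_zero _ hκ0ne)
  intro E c hc0 hE hEe hE' hNE hfE
  obtain ⟨w, hw⟩ := hNE
  obtain ⟨Em, hEmd⟩ : ∃ Em, Em = m' * N ^ k * w := ⟨_, rfl⟩
  obtain ⟨Ed, hEdd⟩ : ∃ Ed, Ed = d' * N ^ k * w := ⟨_, rfl⟩
  have hEm : E = m * Em := by
    rw [hEmd]
    linear_combination hw + (N ^ k * w) * hm'
  have hEd : E = d * Ed := by
    rw [hEdd]
    linear_combination hw + (N ^ k * w) * hd'
  have hNkEm : N ^ k ∣ Em := by
    rw [hEmd]
    exact Dvd.intro_left _ (by ring : m' * w * N ^ k = m' * N ^ k * w)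
  have hNkEd : N ^ k ∣ Ed := by
    rw [hEdd]
    exact Dvd.intro_left _ (by ring : d' * w * N ^ k = d' * N ^ k * w)
  have hNEm : N ∣ Em := (dvd_pow_self N (by omega)).trans hNkEm
  have hNEd : N ∣ Ed := (dvd_pow_self N (by omega)).trans hNkEd
  obtain ⟨u1, hu1⟩ : ∃ u1, u1 = a1 + Em * (2 * X + E + E ^ 3) := ⟨_, rfl⟩
  obtain ⟨P1, hP1⟩ : ∃ P1, P1 = y1 + Ed := ⟨_, rfl⟩
  have hu : (X + E) ^ 2 + E ^ 4 + V ^ Fintype.card K + s = m * u1 := by
    rw [hu1]
    linear_combination ha + (2 * X + E + E ^ 3) * hEm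
  have hPd : Y s + E = d * P1 := by
    rw [hP1]
    linear_combination hy + hEd
  -- degrees
  have hXE : (X + E).natDegree ≤ e :=
    natDegree_add_le_of_degree_le (natDegree_X_le.trans he.le) hEe.le
  have hrest : ((X + E) ^ 2 + V ^ Fintype.card K + s).natDegree ≤ 2 * e :=
    natDegree_add_le_of_degree_le (natDegree_add_le_of_degree_le
      (natDegree_pow_le.trans (Nat.mul_le_mul_left 2 hXE)) (by omega)) (by omega)
  have hE4 : (E ^ 4).natDegree = 4 * e := by rw [hE.natDegree_pow, hEe]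
  have hueq : m * u1 = E ^ 4 + ((X + E) ^ 2 + V ^ Fintype.card K + s) := by
    rw [← hu]
    ring
  have humon : (m * u1).Monic := by
    rw [hueq]
    exact (hE.pow 4).add_of_left (degree_lt_degree (by omega))
  have hudeg : (m * u1).natDegree = 4 * e := by
    rw [hueq, natDegree_add_eq_left_of_natDegree_lt (by omega), hE4]
  have hYdeg : (Y s).natDegree ≤ e - 1 := by
    unfold Y
    refine natDegree_add_le_of_degree_le (natDegree_X_le.trans (by omega)) ?_
    refine (natDegree_C_mul_le _ _).trans ((natDegree_derivative_le s).trans (by omega))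
  have hPmon : (d * P1).Monic := by
    rw [← hPd, add_comm]
    exact hE.add_of_left (degree_lt_degree (by omega))
  have hPdeg : (d * P1).natDegree = e := by
    rw [← hPd, add_comm, natDegree_add_eq_left_of_natDegree_lt (by omega), hEe]
  have hu1m : u1.Monic := hm.of_mul_monic_left humon
  have hP1m : P1.Monic := hd.of_mul_monic_left hPmon
  have hu1d : u1.natDegree = D := by
    rw [hm.natDegree_mul hu1m] at hudeg
    omega
  have hP1d : P1.natDegree = p := by
    rw [hd.natDegree_mul hP1m] at hPdeg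
    omega
  -- derivative
  have hdu : derivative (m * u1) = C 2 * (d * P1) := by
    rw [← hu, ← hPd]
    have hq0 : ((Fintype.card K : ℕ) : K) = 0 := FiniteField.cast_card_eq_zero K
    have hV' : derivative (V ^ Fintype.card K) = 0 := by
      rw [derivative_pow, hq0, C_0, zero_mul, zero_mul]
    rw [derivative_add, derivative_add, derivative_add, hV', derivative_pow, derivative_pow,
      derivative_add, hE', derivative_X]
    unfold Y
    push_cast
    linear_combination (-(derivative s)) * hC2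
  have hder : derivative m * u1 + m * derivative u1 = C 2 * (d * P1) := by
    rw [← derivative_mul, hdu]
  -- congruence
  have hcong : P1 ∣ m * u1 - f * Qt := by
    refine (Dvd.intro_left d rfl).trans (Dvd.intro
      ((X + E - C (2⁻¹ : K) * derivative s) + (E - Y s) * (E ^ 2 + (Y s) ^ 2)) ?_)
    rw [← hPd, ← hu, ← hV]
    unfold H Y
    ring
  -- coprimality
  have hu1N : IsCoprime u1 N := by
    obtain ⟨g, hg⟩ := hNEm
    rw [hu1, hg, mul_assoc]
    exact IsCoprime.add_mul_left_left ha1 _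
  have hP1N : IsCoprime P1 N := by
    obtain ⟨g, hg⟩ := hNEd
    rw [hP1, hg]
    exact IsCoprime.add_mul_left_left hy1 _
  have hmN : m ∣ N ^ k := ⟨m', hm'⟩
  have hdN : d ∣ N ^ k := ⟨d', hd'⟩
  have hCc : IsUnit (C c) := isUnit_C.mpr (isUnit_iff_ne_zero.mpr hc0)
  have hPf : IsCoprime (d * P1) f := by
    obtain ⟨g, hg⟩ := hfE
    have h1 : d * P1 = C c + f * g := by
      rw [← hPd]
      linear_combination hg
    rw [h1]
    exact IsCoprime.add_mul_left_left (cop_unit hCc) _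
  have hP1f : IsCoprime P1 f := hPf.of_mul_left_right
  have hP1Q : IsCoprime P1 Qt := hcN _ _ hP1N hQk
  have hP1u : IsCoprime P1 (m * u1) := by
    obtain ⟨g, hg⟩ := hcong
    have h1 : m * u1 = f * Qt + P1 * g := by linear_combination hg
    rw [h1]
    exact IsCoprime.add_mul_left_right (hP1f.mul_right hP1Q) _
  have hu1P1 : IsCoprime u1 P1 := (hP1u.of_mul_right_right).symm
  have hu1dc : IsCoprime u1 d := hcN _ _ hu1N hdN
  have hu1mc : IsCoprime u1 m := hcN _ _ hu1N hmN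
  have hsep : IsCoprime u1 (derivative u1) := by
    have h1 : IsCoprime u1 (C 2 * (d * P1)) :=
      ((cop_unit (isUnit_C.mpr (isUnit_iff_ne_zero.mpr h2))).symm).mul_right
        (hu1dc.mul_right hu1P1)
    rw [← hder] at h1
    have h3 : IsCoprime u1 (m * derivative u1) := by
      have h4 : derivative m * u1 + m * derivative u1 = m * derivative u1 + u1 * derivative m := by
        ring
      rw [h4] at h1
      exact IsCoprime.of_add_mul_left_right h1
    exact h3.of_mul_right_right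
  have hsqf : Squarefree u1 := Polynomial.Separable.squarefree hsep
  -- values
  have A1 : R u1 m * R u1 (derivative u1) = (algebraMap K L 2) ^ D * (R u1 d * R u1 P1) := by
    rw [← hmR K, hc K u1 (m * derivative u1) (C 2 * (d * P1)) ?_, hmR K, hmR K, hRC K, hu1d]
    rw [← hder]
    exact Dvd.intro (-(derivative m)) (by ring)
  have A2 : R m y1 * R u1 P1 = (-1) ^ (4 * e * p) * (((-1) ^ (p * f.natDegree) * R f P1) *
      ((-1) ^ (p * Qt.natDegree) * R Qt y1)) := by
    have h1 : R m y1 = R m P1 := by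
      refine hc K m y1 P1 ?_
      rw [hP1]
      have h3 : m ∣ Ed := hmN.trans hNkEd
      have h4 : y1 - (y1 + Ed) = -Ed := by ring
      rw [h4]
      exact (dvd_neg).mpr h3
    have h5 : R Qt y1 = R Qt P1 := by
      refine hc K Qt y1 P1 ?_
      rw [hP1]
      have h3 : Qt ∣ Ed := hQk.trans hNkEd
      have h4 : y1 - (y1 + Ed) = -Ed := by ring
      rw [h4]
      exact (dvd_neg).mpr h3
    rw [h1, ← hmL K m u1 P1 hm.ne_zero hu1m.ne_zero, hsw K (m * u1) P1 humon hP1m,
      hc K P1 (m * u1) (f * Qt) hcong, hmR K, hsw K P1 f hP1m hf, hsw K P1 Qt hP1m hQt, h5,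
      hudeg, hP1d]
  have A3 : R f d * R f P1 = (algebraMap K L c) ^ f.natDegree := by
    rw [← hmR K, ← hPd, hc K f (Y s + E) (C c) hfE, hRC K]
  have A4 : R u1 m = (-1) ^ (D * m.natDegree) * R m a1 := by
    rw [hsw K u1 m hu1m hm, hu1d]
    congr 1
    refine hc K m u1 a1 ?_
    rw [hu1, add_sub_cancel_left]
    exact (hmN.trans hNkEm).mul_right _
  have A5 : R u1 d = (-1) ^ (D * d.natDegree) * R d a1 := by
    rw [hsw K u1 d hu1m hd, hu1d]
    congr 1
    refine hc K d u1 a1 ?_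
    rw [hu1, add_sub_cancel_left]
    exact (hdN.trans hNkEm).mul_right _
  have hr0 : R u1 (derivative u1) = κ0 * (algebraMap K L c) ^ f.natDegree := by
    rw [hκ0, div_mul_eq_mul_div, eq_div_iff
      (mul_ne_zero (mul_ne_zero (mul_ne_zero (hneg _) nz3) nz4) nz5), ← A4, ← A5]
    linear_combination (R m y1 * R f d) * A1 + ((algebraMap K L 2) ^ D * R u1 d * R f d) * A2 +
      ((algebraMap K L 2) ^ D * R u1 d * ((-1) ^ (4 * e * p) * (-1) ^ (p * f.natDegree) *
        (-1) ^ (p * Qt.natDegree) * R Qt y1)) * A3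
  have hPel := hP K hodd u1 hu1m hsqf
  rw [hr0, hu1d, mul_pow] at hPel
  have hOm : Om ((X + E) ^ 2 + E ^ 4 + V ^ Fintype.card K + s) = Om m + Om u1 := by
    rw [hu]
    exact Om_mul _ _ hm.ne_zero hu1m.ne_zero
  rw [hOm, pow_add, mul_assoc, mul_comm (hq K) f.natDegree, pow_mul]
  rw [pow_add] at hPel
  have hT : (((-1 : L) ^ (D * (D - 1) / 2)) ^ hq K) * (((-1 : L) ^ (D * (D - 1) / 2)) ^ hq K) = 1 := by
    rw [← mul_pow, hsq, one_pow]
  rw [hPel]
  have hD1 := hsq D
  calc (-1 : L) ^ Om m * (-1) ^ Om u1 = (-1) ^ Om m * (-1) ^ Om u1 *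
        (((-1 : L) ^ D) * ((-1 : L) ^ D)) * ((((-1 : L) ^ (D * (D - 1) / 2)) ^ hq K) *
          (((-1 : L) ^ (D * (D - 1) / 2)) ^ hq K)) := by rw [hT, hD1, mul_one, mul_one]
    _ = _ := by ring

end Pool.Agent.W929.LF
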